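import Pool.Agent.MWT.Stmts

/-!
# MWT, row CVY: the letter `y` of the pattern does not cover thin letters
-/

set_option autoImplicit false

namespace Pool.Agent.MWT.H26

open Pool.Agent.Helper14_MV Pool.Agent.Helper2_MV Pool.Agent.MVD Pool.Agent.MWT

theorem nl_append (a b : List ℕ) : nl (a ++ b) = nl a + nl b := by
  unfold nl; rw [List.filter_append, List.length_append]

theorem nl_cons0 {h : ℕ} (hh : h % 3 = 0) (b : List ℕ) : nl (h :: b) = nl b := by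
  unfold nl
  rw [List.filter_cons_of_neg (by simp [hh])]

/-- a double letter of the pattern -/
theorem double_split {φ : ℕ → List ℕ} {α ω A B : List ℕ} {s : ℕ} :
    α ++ ((A ++ s :: s :: B).flatMap φ ++ ω) =
      (α ++ A.flatMap φ) ++ (φ s ++ (φ s ++ (B.flatMap φ ++ ω))) := by
  simp only [List.flatMap_append, List.flatMap_cons, List.append_assoc]

theorem cvy (h1 : LwcStmt) (h2 : CvaStmt) (h3 : CvbStmt) (h4 : CvdStmt) (h5 : CveStmt)
    (h6 : CvlStmt) : CvyStmt := by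
  intro n m R c E B t M N φ hc hn hm hR hT hw hE e he hmem
  obtain ⟨-, -, hL2, -, -, hnl, hloc⟩ := h1 n m 1 1 c hc hn le_rfl le_rfl
  obtain ⟨L1, hL1⟩ : ∃ L, L = 0 :: (cp 0 c ++ 3 :: (cp 1 c ++ cp 2 c)) := ⟨_, rfl⟩
  obtain ⟨X, hX⟩ : ∃ X, X = cp 3 c ++ 0 :: (cp 4 c ++ 3 :: (cp 5 c ++ cp 6 c)) := ⟨_, rfl⟩
  have eL : Lw 1 1 c = L1 ++ 6 :: (X ++ 6 :: []) := by
    rw [hL1, hX]
    simp [Lw, P]
  have hin : e ∈ (Lw 1 1 c).flatMap φ := by
    rw [List.mem_flatMap]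
    exact ⟨6, by rw [eL]; simp, hmem⟩
  obtain ⟨⟨α, ω, hB⟩, -⟩ := h2 n m R c E B t 1 1 M N φ e hc hn le_rfl le_rfl hR hT hw he hin
  obtain ⟨c0, c1⟩ := h3 n m R c E B t 1 1 M N φ e hc hn le_rfl le_rfl hR hT hw he hin
  have nx : nl X = 4 * m := by
    rw [hX, nl_append, nl_cons0 (by norm_num), nl_append, nl_cons0 (by norm_num), nl_append,
      hnl 3 (by norm_num), hnl 4 (by norm_num), hnl 5 (by norm_num), hnl 6 (by norm_num)]
    ring
  have hcv : Cv m E (B 0) φ α L1 X [] ω 6 e :=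
    { b0 := by rw [hB, eL]
      c0 := by rw [← eL]; exact c0
      c1 := by rw [← eL]; exact c1
      c2 := by rw [← eL]; exact hL2
      nx := nx
      h0 := by norm_num
      ee := he
      eh := hmem }
  obtain ⟨f, hf, hfe, hdist⟩ : ∃ f, E f ∧ f ≠ e ∧ dist e f = 1 := by
    rcases (hE e).1 he with rfl | rfl
    · exact ⟨3, (hE 3).2 (Or.inr rfl), by norm_num, by decide⟩
    · exact ⟨0, (hE 0).2 (Or.inl rfl), by norm_num, by decide⟩
  obtain ⟨-, hfX, hf0⟩ := h4 m (R7 R) E B t φ α L1 X [] ω 6 e f hm hT hcv hf hfe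
  obtain ⟨s, hsX, hfs⟩ := List.mem_flatMap.1 hfX
  have hs0 := hf0 s hsX hfs
  -- local letters
  have loc : ∀ k < 7, (∃ A D : List ℕ, L1 ++ 6 :: (X ++ 6 :: []) = A ++ (cp k c ++ D)) →
      s ∉ cp k c := by
    rintro k hk ⟨A, D, hAD⟩ hsk
    obtain ⟨-, U, V, hUV⟩ := hloc k hk s hsk hs0
    have e1 : L1 ++ 6 :: (X ++ 6 :: []) = (A ++ U) ++ s :: s :: (V ++ D) := by
      rw [hAD, hUV]; simp
    have hb := hcv.b0
    have hn0 : nl (φ s) = 0 := hcv.c0 s (by rw [e1]; simp) hs0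
    rw [e1, double_split] at hb
    exact h5 m (R7 R) E B t φ _ _ s f hm hT hf hn0 hb hfs
  rw [hX] at hsX
  simp only [List.mem_append, List.mem_cons] at hsX
  rcases hsX with h | rfl | h | rfl | h | h
  · refine loc 3 (by norm_num) ⟨L1 ++ [6], 0 :: (cp 4 c ++ 3 :: (cp 5 c ++ cp 6 c)) ++ [6], ?_⟩ h
    rw [hX]; simp
  · -- the letter `x`
    have e1 : L1 = [] ++ 0 :: (cp 0 c ++ 3 :: (cp 1 c ++ cp 2 c)) := by rw [hL1]; rfl
    have hcv' := hcv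
    rw [e1, hX] at hcv'
    have h7 := h6 m (R7 R) E B t φ α _ _ _ _ _ ω 6 e f 0 hm hT hcv' hf hfe (by norm_num) hfs
    rw [nl_append, nl_cons0 (by norm_num), nl_append, hnl 4 (by norm_num), hnl 5 (by norm_num),
      hnl 6 (by norm_num), hdist] at h7
    omega
  · refine loc 4 (by norm_num) ⟨L1 ++ 6 :: (cp 3 c ++ [0]), 3 :: (cp 5 c ++ cp 6 c) ++ [6], ?_⟩ h
    rw [hX]; simp
  · -- the letter `u`
    have e1 : L1 = (0 :: cp 0 c) ++ 3 :: (cp 1 c ++ cp 2 c) := by rw [hL1]; rfl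
    have e2 : X = (cp 3 c ++ 0 :: cp 4 c) ++ 3 :: (cp 5 c ++ cp 6 c) := by rw [hX]; simp
    have hcv' := hcv
    rw [e1, e2] at hcv'
    have h7 := h6 m (R7 R) E B t φ α _ _ _ _ _ ω 6 e f 3 hm hT hcv' hf hfe (by norm_num) hfs
    rw [nl_append, hnl 5 (by norm_num), hnl 6 (by norm_num), hdist] at h7
    omega
  · refine loc 5 (by norm_num) ⟨L1 ++ 6 :: (cp 3 c ++ 0 :: (cp 4 c ++ [3])), cp 6 c ++ [6], ?_⟩ h
    rw [hX]; simp
  · refine loc 6 (by norm_num)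
      ⟨L1 ++ 6 :: (cp 3 c ++ 0 :: (cp 4 c ++ 3 :: cp 5 c)), [6], ?_⟩ h
    rw [hX]; simp

end Pool.Agent.MWT.H26
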